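import Pool.Agent.H90.CNY.Stmts

/-!
# Row YT2: the divisor theorem
-/

set_option autoImplicit false

namespace Pool.CND

open Finset

theorem yt2_mul {p a b e : ℕ} {c : ℚ} (hab : a ≤ b) (h : ∃ z : ℤ, ((p ^ a * e : ℕ) : ℚ) * c = z) :
    ∃ z : ℤ, ((p ^ b * e : ℕ) : ℚ) * c = z := by
  obtain ⟨z, hz⟩ := h
  refine ⟨((p ^ (b - a) : ℕ) : ℤ) * z, ?_⟩
  have hpow : p ^ b = p ^ (b - a) * p ^ a := by
    rw [← pow_add, Nat.sub_add_cancel hab]
  rw [hpow]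
  push_cast at hz ⊢
  rw [← hz]
  ring

theorem yt2_thm (h1 : S_YT1) (hS : S_SYG) (hP : S_YPP) (hD : S_NGD) : S_YT2 := by
  intro p k G _ _ _ A d m e hp hk hA hm hcard he H
  have hall : ∀ c ∈ Cond k G, (∃ z : ℤ, ((p ^ d * e : ℕ) : ℚ) * c = z) ∧
      (p = 2 → 1 ≤ d → ∃ z : ℤ, ((2 ^ (d - 1) * e : ℕ) : ℚ) * c = z) := by
    intro c hc
    rcases h1 p k G hp hk c hc with h0 | ⟨W, I, C, hY⟩
    · subst h0
      exact ⟨⟨0, by simp⟩, fun _ _ => ⟨0, by simp⟩⟩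
    · obtain ⟨n, hn, hcI⟩ := hY.cardI
      have hYC : YC I C e := hP p G W I C n e hp hY.CW hY.WI hY.cardW hY.nrmW hcI hn hY.cen
        (fun g hg hord w hw => H g C hord hY.ne hY.ea (hY.nrmC g hg) (hY.semi g hg) w hw)
      obtain ⟨A', d', hA'W, hd', hA', hW⟩ := hS p G A W d m hp hA hm hcard hY.cardW
      obtain ⟨m1, m2⟩ := hY.mul A' d' e hA'W hA' hW hYC
      refine ⟨yt2_mul hd' m1, ?_⟩
      intro hp2 hd1
      rcases Nat.eq_zero_or_pos d' with h0 | h0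
      · subst h0
        subst hp2
        exact yt2_mul (Nat.zero_le _) m1
      · exact yt2_mul (by omega) (m2 hp2 h0)
  refine ⟨hall, ?_, ?_⟩
  · exact hD k G _ (Nat.one_le_iff_ne_zero.2 (Nat.mul_ne_zero (pow_ne_zero _ hp.ne_zero) (by omega)))
      fun c hc => (hall c hc).1
  · intro hp2 hd1
    exact hD k G _ (Nat.one_le_iff_ne_zero.2 (Nat.mul_ne_zero (by positivity) (by omega)))
      fun c hc => (hall c hc).2 hp2 hd1

end Pool.CND
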